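import Pool.Agent.H95.ESP.Stmts

set_option autoImplicit false

namespace ESP
open Finset

private theorem omg_cast (p : ℕ) (b' : ℤ) (c : ZMod p) [NeZero p]
    (h : b' ≡ ((ZMod.val c : ℕ) : ℤ) [ZMOD p]) : (b' : ZMod p) = c := by
  have h1 : ((b' : ℤ) : ZMod p) = (((ZMod.val c : ℕ) : ℤ) : ZMod p) :=
    (ZMod.intCast_eq_intCast_iff _ _ p).2 h
  rw [h1]
  simp

private theorem omg_D (p : ℕ) (a b : ℤ) :
    ((p : ℤ) ∣ D a b) ↔ 4 * (a : ZMod p) ^ 3 + 27 * (b : ZMod p) ^ 2 = 0 := by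
  rw [← ZMod.intCast_zmod_eq_zero_iff_dvd]
  unfold D
  push_cast
  exact Iff.rfl

private theorem omg_val (p : ℕ) [NeZero p] (S : Finset (ZMod p)) :
    (S.image ZMod.val) ⊆ range p ∧ (S.image ZMod.val).card = S.card := by
  constructor
  · intro n hn
    obtain ⟨c, _, rfl⟩ := mem_image.1 hn
    exact mem_range.2 (ZMod.val_lt c)
  · exact card_image_of_injective _ (ZMod.val_injective p)

theorem omg_thm (hPTY : S_PTY) (hCNT : S_CNT) : S_OMG := by
  intro p hp h13 a b a' hD ha'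
  haveI : Fact p.Prime := ⟨hp⟩
  have ha0 : (a' : ZMod p) ≠ 0 := by
    intro h
    exact ha' ((ZMod.intCast_zmod_eq_zero_iff_dvd a' p).1 h)
  have hD0 : 4 * (a : ZMod p) ^ 3 + 27 * (b : ZMod p) ^ 2 ≠ 0 := fun h => hD ((omg_D p a b).2 h)
  obtain ⟨hc1, hc2⟩ := hCNT p h13 (a' : ZMod p) ha0
  have hP1 := hPTY p (by omega) (a : ZMod p) (b : ZMod p) hD0
  have h2 : (2 : ZMod p) ≠ 0 := by
    intro h
    have : ((2 : ℕ) : ZMod p) = 0 := by exact_mod_cast h
    rw [ZMod.natCast_eq_zero_iff] at this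
    have := Nat.le_of_dvd (by norm_num) this
    omega
  by_cases hr : ∃ x : ZMod p, x ^ 3 + (a : ZMod p) * x + (b : ZMod p) = 0
  · refine ⟨(univ.filter (fun b : ZMod p => ∀ x : ZMod p, x ^ 3 + (a' : ZMod p) * x + b ≠ 0)).image
      ZMod.val, (omg_val p _).1, ?_, ?_⟩
    · rw [(omg_val p _).2]; exact hc1
    · intro n hn b' hb'
      obtain ⟨c, hc, rfl⟩ := mem_image.1 hn
      have hcc := (mem_filter.1 hc).2
      have hbc := omg_cast p b' c hb'
      have hne : 4 * (a' : ZMod p) ^ 3 + 27 * c ^ 2 ≠ 0 := by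
        intro h
        refine hcc (-3 * c / (2 * (a' : ZMod p))) ?_
        have h3 : ((-3 * c / (2 * (a' : ZMod p))) ^ 3 + (a' : ZMod p) * (-3 * c / (2 * (a' : ZMod p))) + c)
            = -(c / (8 * (a' : ZMod p) ^ 3)) * (4 * (a' : ZMod p) ^ 3 + 27 * c ^ 2) := by
          have h8 : (8 : ZMod p) ≠ 0 := by
            have : (8 : ZMod p) = 2 * 2 * 2 := by norm_num
            rw [this]
            exact mul_ne_zero (mul_ne_zero h2 h2) h2
          field_simp
          ring
        rw [h3, h, mul_zero]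
      have hP2 := hPTY p (by omega) (a' : ZMod p) c hne
      refine ⟨fun h => ?_, fun h => ?_⟩
      · have := (omg_D p a' b').1 h
        rw [hbc] at this
        exact hne this
      · unfold pts at h
        rw [hbc] at h
        rw [h] at hP1
        have hev := hP1.2 hr
        obtain ⟨x, hx⟩ := hP2.1 hev
        exact hcc x hx
  · refine ⟨(univ.filter (fun b : ZMod p => 4 * (a' : ZMod p) ^ 3 + 27 * b ^ 2 ≠ 0 ∧
      ∃ x : ZMod p, x ^ 3 + (a' : ZMod p) * x + b = 0)).image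
      ZMod.val, (omg_val p _).1, ?_, ?_⟩
    · rw [(omg_val p _).2]; exact hc2
    · intro n hn b' hb'
      obtain ⟨c, hc, rfl⟩ := mem_image.1 hn
      have hcc := (mem_filter.1 hc).2
      have hbc := omg_cast p b' c hb'
      have hP2 := hPTY p (by omega) (a' : ZMod p) c hcc.1
      refine ⟨fun h => ?_, fun h => ?_⟩
      · have := (omg_D p a' b').1 h
        rw [hbc] at this
        exact hcc.1 this
      · unfold pts at h
        rw [hbc] at h
        rw [h] at hP1
        exact hr (hP1.1 (hP2.2 hcc.2))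

end ESP
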